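import Mathlib
import Pool.Agent.N978.HP.Stm

/-!
# HP/SV (helper592): sieve on the rational points of the projective line by height
-/

set_option autoImplicit false

namespace Pool.Agent.N592.HP

open Filter Topology Finset Pool.Agent.N978.HP

/-- the coordinates -/
def psi (t : Pt) : ℤ × ℤ := (t.a, t.b)

theorem psi_inj : Function.Injective psi := by
  rintro ⟨a, b, h⟩ ⟨a', b', h'⟩ e
  simp only [psi, Prod.mk.injEq] at e
  obtain ⟨rfl, rfl⟩ := e
  rfl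

/-- the points of height at most `H` -/
def PH (H : ℕ) : Set Pt := {t | t.height ≤ H}

theorem mem_box {H : ℕ} {t : Pt} (ht : t.height ≤ H) :
    psi t ∈ (Finset.Icc (-(H : ℤ)) H) ×ˢ (Finset.Icc (-(H : ℤ)) H) := by
  unfold Pt.height at ht
  rw [max_le_iff] at ht
  rw [Finset.mem_product, Finset.mem_Icc, Finset.mem_Icc]
  simp only [psi]
  omega

theorem fin_PH (H : ℕ) : (PH H).Finite := by
  apply Set.Finite.of_finite_image (f := psi) _ psi_inj.injOn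
  apply ((Finset.Icc (-(H : ℤ)) H) ×ˢ (Finset.Icc (-(H : ℤ)) H)).finite_toSet.subset
  rintro _ ⟨t, ht, rfl⟩
  exact mem_box ht

/-! ## Lower bound for the number of points -/

theorem sum_inv_sq (H : ℕ) (hH : 2 ≤ H) :
    ∑ n ∈ Finset.Icc 2 H, (1 : ℝ) / (n : ℝ) ^ 2 ≤ 3 / 4 - 1 / H := by
  induction H, hH using Nat.le_induction with
  | base => norm_num
  | succ H hH ih =>
    rw [Finset.sum_Icc_succ_top (by omega)]
    have hH' : (0 : ℝ) < H := by positivity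
    have h1 : (1 : ℝ) / ((H + 1 : ℕ) : ℝ) ^ 2 ≤ 1 / H - 1 / ((H + 1 : ℕ) : ℝ) := by
      push_cast
      rw [div_sub_div _ _ hH'.ne' (by positivity), div_le_div_iff₀ (by positivity) (by positivity)]
      nlinarith
    linarith

theorem coprime_pairs (H : ℕ) : (H : ℝ) ^ 2 / 4 ≤
    (((Finset.Icc 1 H ×ˢ Finset.Icc 1 H).filter (fun x : ℕ × ℕ => Nat.Coprime x.1 x.2)).card : ℝ) := by
  have h1 : ((Finset.Icc 1 H ×ˢ Finset.Icc 1 H).filter
      (fun x : ℕ × ℕ => ¬ Nat.Coprime x.1 x.2)) ⊆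
      (Finset.Icc 2 H).biUnion (fun n => ((Finset.Ioc 0 H).filter (fun a => n ∣ a)) ×ˢ
        ((Finset.Ioc 0 H).filter (fun a => n ∣ a))) := by
    rintro ⟨a, b⟩ hx
    rw [Finset.mem_filter, Finset.mem_product, Finset.mem_Icc, Finset.mem_Icc] at hx
    obtain ⟨⟨⟨ha1, ha2⟩, ⟨hb1, hb2⟩⟩, hg⟩ := hx
    simp only at ha1 ha2 hb1 hb2 hg
    rw [Finset.mem_biUnion]
    have hg0 : 0 < Nat.gcd a b := Nat.gcd_pos_of_pos_left _ ha1
    have hgle : Nat.gcd a b ≤ a := Nat.gcd_le_left _ ha1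
    refine ⟨Nat.gcd a b, ?_, ?_⟩
    · rw [Finset.mem_Icc]
      have h2 : Nat.gcd a b ≠ 1 := hg
      omega
    · rw [Finset.mem_product, Finset.mem_filter, Finset.mem_filter, Finset.mem_Ioc,
        Finset.mem_Ioc]
      exact ⟨⟨⟨ha1, ha2⟩, Nat.gcd_dvd_left _ _⟩, ⟨⟨hb1, hb2⟩, Nat.gcd_dvd_right _ _⟩⟩
  have h2 : (((Finset.Icc 1 H ×ˢ Finset.Icc 1 H).filter
      (fun x : ℕ × ℕ => ¬ Nat.Coprime x.1 x.2)).card : ℝ) ≤ 3 / 4 * (H : ℝ) ^ 2 := by
    have h3 := (Finset.card_le_card h1).trans Finset.card_biUnion_le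
    have h4 : ∀ n ∈ Finset.Icc 2 H, ((((Finset.Ioc 0 H).filter (fun a => n ∣ a)) ×ˢ
        ((Finset.Ioc 0 H).filter (fun a => n ∣ a))).card : ℝ) ≤ (H : ℝ) ^ 2 * (1 / (n : ℝ) ^ 2) := by
      intro n _
      rw [Finset.card_product, Nat.Ioc_filter_dvd_card_eq_div]
      push_cast
      have h5 : ((H / n : ℕ) : ℝ) ≤ (H : ℝ) / n := Nat.cast_div_le
      calc ((H / n : ℕ) : ℝ) * ((H / n : ℕ) : ℝ) ≤ ((H : ℝ) / n) * ((H : ℝ) / n) :=
            mul_le_mul h5 h5 (by positivity) (by positivity)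
        _ = _ := by ring
    calc _ ≤ ((∑ n ∈ Finset.Icc 2 H, (((Finset.Ioc 0 H).filter (fun a => n ∣ a)) ×ˢ
        ((Finset.Ioc 0 H).filter (fun a => n ∣ a))).card : ℕ) : ℝ) := by exact_mod_cast h3
      _ ≤ ∑ n ∈ Finset.Icc 2 H, (H : ℝ) ^ 2 * (1 / (n : ℝ) ^ 2) := by
          push_cast
          exact Finset.sum_le_sum fun n hn => by exact_mod_cast h4 n hn
      _ = (H : ℝ) ^ 2 * ∑ n ∈ Finset.Icc 2 H, 1 / (n : ℝ) ^ 2 := (Finset.mul_sum _ _ _).symm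
      _ ≤ _ := by
          rcases Nat.lt_or_ge H 2 with h6 | h6
          · rw [Finset.Icc_eq_empty (by omega)]
            simp
          · have h7 := sum_inv_sq H h6
            have h8 : (0 : ℝ) ≤ 1 / H := by positivity
            have h9 : (0 : ℝ) ≤ (H : ℝ) ^ 2 := by positivity
            nlinarith
  have h3 := Finset.card_filter_add_card_filter_not (s := Finset.Icc 1 H ×ˢ Finset.Icc 1 H)
    (fun x : ℕ × ℕ => Nat.Coprime x.1 x.2)
  rw [Finset.card_product, Nat.card_Icc] at h3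
  have h4 : (((Finset.Icc 1 H ×ˢ Finset.Icc 1 H).filter
      (fun x : ℕ × ℕ => Nat.Coprime x.1 x.2)).card : ℝ) +
      (((Finset.Icc 1 H ×ˢ Finset.Icc 1 H).filter
      (fun x : ℕ × ℕ => ¬ Nat.Coprime x.1 x.2)).card : ℝ) = (H : ℝ) * H := by
    have h5 : H + 1 - 1 = H := by omega
    rw [h5] at h3
    exact_mod_cast h3
  nlinarith

theorem lower (H : ℕ) : (H : ℝ) ^ 2 / 4 ≤ ((PH H).ncard : ℝ) := by
  refine (coprime_pairs H).trans ?_
  have h1 : ((Finset.Icc 1 H ×ˢ Finset.Icc 1 H).filter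
      (fun x : ℕ × ℕ => Nat.Coprime x.1 x.2)).card ≤ (psi '' PH H).ncard := by
    rw [← Set.ncard_coe_finset]
    refine Set.ncard_le_ncard_of_injOn (fun x : ℕ × ℕ => ((x.1 : ℤ), (x.2 : ℤ))) ?_ ?_
      ((fin_PH H).image psi)
    · rintro ⟨a, b⟩ hx
      rw [Finset.mem_coe, Finset.mem_filter, Finset.mem_product, Finset.mem_Icc,
        Finset.mem_Icc] at hx
      refine ⟨⟨a, b, Nat.isCoprime_iff_coprime.2 hx.2⟩, ?_, rfl⟩
      show max (a : ℤ).natAbs (b : ℤ).natAbs ≤ H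
      simp only at hx
      rw [Int.natAbs_natCast, Int.natAbs_natCast]
      exact max_le hx.1.1.2 hx.1.2.2
    · rintro ⟨a, b⟩ _ ⟨a', b'⟩ _ h
      simp only [Prod.mk.injEq, Nat.cast_inj] at h
      rw [h.1, h.2]
  rw [Set.ncard_image_of_injective _ psi_inj] at h1
  exact_mod_cast h1

/-! ## Upper bound -/

/-- residues in a short interval -/
theorem card_residue (H M : ℕ) (hM : 1 ≤ M) (x : ℤ) :
    ((Finset.Icc (-(H : ℤ)) H).filter (fun a => (M : ℤ) ∣ a - x)).card ≤ 2 * H / M + 1 := by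
  have h1 : ((Finset.Icc (-(H : ℤ)) H).filter (fun a => (M : ℤ) ∣ a - x)).card ≤
      (Finset.range (2 * H / M + 1)).card := by
    have hM' : (0 : ℤ) < M := by exact_mod_cast hM
    refine Finset.card_le_card_of_injOn (fun a => ((a + H) / M).toNat) ?_ ?_
    · intro a ha
      rw [Finset.mem_coe, Finset.mem_filter, Finset.mem_Icc] at ha
      rw [Finset.mem_coe, Finset.mem_range]
      have h2 : (a + H) / M ≤ (2 * H) / M := Int.ediv_le_ediv hM' (by omega)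
      have h3 : 0 ≤ (a + H) / M := Int.ediv_nonneg (by omega) hM'.le
      have h4 : ((2 * H / M : ℕ) : ℤ) = (2 * H) / M := by push_cast; rfl
      show ((a + H) / (M : ℤ)).toNat < 2 * H / M + 1
      omega
    · intro a ha a' ha' h
      rw [Finset.mem_coe, Finset.mem_filter, Finset.mem_Icc] at ha ha'
      have h3 : 0 ≤ (a + H) / (M : ℤ) := Int.ediv_nonneg (by omega) hM'.le
      have h3' : 0 ≤ (a' + H) / (M : ℤ) := Int.ediv_nonneg (by omega) hM'.le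
      have h4 : ((a + H) / (M : ℤ)).toNat = ((a' + H) / (M : ℤ)).toNat := h
      have h5 : (a + H) / (M : ℤ) = (a' + H) / (M : ℤ) := by omega
      have h6 : (M : ℤ) ∣ (a + H) - (a' + H) := by
        have h7 := dvd_sub ha.2 ha'.2
        have h8 : a - x - (a' - x) = (a + H) - (a' + H) := by ring
        rwa [h8] at h7
      have h9 : (a + H) % (M : ℤ) = (a' + H) % (M : ℤ) := ((Int.modEq_iff_dvd).2 h6).symm
      have h10 := Int.mul_ediv_add_emod (a + H) M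
      have h11 := Int.mul_ediv_add_emod (a' + H) M
      rw [h5, h9] at h10
      omega
  rwa [Finset.card_range] at h1

/-- the good residues modulo `p` -/
noncomputable def VV (c : ℕ → Pt) (p : ℕ) : Finset (ℤ × ℤ) :=
  ((Finset.Ico (0 : ℤ) p) ×ˢ (Finset.Ico (0 : ℤ) p)).filter
    (fun x => ¬ (p : ℤ) ∣ x.1 * (c p).b - x.2 * (c p).a)

theorem card_VV (c : ℕ → Pt) (p : ℕ) (hp : 1 ≤ p) : (VV c p).card + p ≤ p ^ 2 := by
  have hp' : (0 : ℤ) < p := by exact_mod_cast hp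
  have h3 := Finset.card_filter_add_card_filter_not
    (s := (Finset.Ico (0 : ℤ) p) ×ˢ (Finset.Ico (0 : ℤ) p))
    (fun x : ℤ × ℤ => (p : ℤ) ∣ x.1 * (c p).b - x.2 * (c p).a)
  rw [Finset.card_product, Int.card_Ico, sub_zero, Int.toNat_natCast] at h3
  have h1 : (Finset.Ico (0 : ℤ) p).card ≤
      (((Finset.Ico (0 : ℤ) p) ×ˢ (Finset.Ico (0 : ℤ) p)).filter
        (fun x : ℤ × ℤ => (p : ℤ) ∣ x.1 * (c p).b - x.2 * (c p).a)).card := by
    refine Finset.card_le_card_of_injOn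
      (fun t => ((t * (c p).a) % p, (t * (c p).b) % p)) ?_ ?_
    · intro t _
      rw [Finset.mem_coe, Finset.mem_filter, Finset.mem_product, Finset.mem_Ico, Finset.mem_Ico]
      refine ⟨⟨⟨Int.emod_nonneg _ hp'.ne', Int.emod_lt_of_pos _ hp'⟩,
        ⟨Int.emod_nonneg _ hp'.ne', Int.emod_lt_of_pos _ hp'⟩⟩, ?_⟩
      have e1 := Int.emod_add_mul_ediv (t * (c p).a) p
      have e2 := Int.emod_add_mul_ediv (t * (c p).b) p
      refine ⟨(t * (c p).b) / p * (c p).a - (t * (c p).a) / p * (c p).b, ?_⟩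
      show (t * (c p).a) % p * (c p).b - (t * (c p).b) % p * (c p).a = _
      linear_combination (c p).b * e1 - (c p).a * e2
    · intro t ht t' ht' h
      rw [Finset.mem_coe, Finset.mem_Ico] at ht ht'
      simp only [Prod.mk.injEq] at h
      obtain ⟨u, v, huv⟩ := (c p).coprime
      have d1 : (p : ℤ) ∣ (t' - t) * (c p).a := by
        have := (Int.modEq_iff_dvd (n := (p : ℤ)) (a := t * (c p).a) (b := t' * (c p).a)).1 h.1
        rwa [← sub_mul] at this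
      have d2 : (p : ℤ) ∣ (t' - t) * (c p).b := by
        have := (Int.modEq_iff_dvd (n := (p : ℤ)) (a := t * (c p).b) (b := t' * (c p).b)).1 h.2
        rwa [← sub_mul] at this
      have d3 : (p : ℤ) ∣ t' - t := by
        have e3 : t' - t = u * ((t' - t) * (c p).a) + v * ((t' - t) * (c p).b) := by
          linear_combination (-(t' - t)) * huv
        rw [e3]
        exact dvd_add (d1.mul_left u) (d2.mul_left v)
      have e4 : t' % p = t % p := ((Int.modEq_iff_dvd).2 d3).symm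
      rw [Int.emod_eq_of_lt ht.1 ht.2, Int.emod_eq_of_lt ht'.1 ht'.2] at e4
      exact e4.symm
  rw [Int.card_Ico, sub_zero, Int.toNat_natCast] at h1
  unfold VV
  rw [sq]
  omega

/-- the sifted set -/
noncomputable def SH (c : ℕ → Pt) (F : Finset ℕ) (H : ℕ) : Finset (ℤ × ℤ) :=
  ((Finset.Icc (-(H : ℤ)) H) ×ˢ (Finset.Icc (-(H : ℤ)) H)).filter
    (fun x => ∀ p ∈ F, ¬ (p : ℤ) ∣ x.1 * (c p).b - x.2 * (c p).a)

theorem card_SH (c : ℕ → Pt) (F : Finset ℕ) (hF : ∀ p ∈ F, p.Prime) (H : ℕ) :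
    (SH c F H).card ≤ (2 * H / (∏ p ∈ F, p) + 1) ^ 2 * ∏ p ∈ F, (VV c p).card := by
  have hM : 1 ≤ ∏ p ∈ F, p := Finset.prod_pos fun p hp => (hF p hp).pos
  let f : ℤ × ℤ → (∀ p ∈ F, ℤ × ℤ) := fun x p _ => (x.1 % (p : ℤ), x.2 % (p : ℤ))
  have h1 : (SH c F H).image f ⊆ Finset.pi F (VV c) := by
    intro w hw
    obtain ⟨x, hx, rfl⟩ := Finset.mem_image.1 hw
    rw [Finset.mem_pi]
    intro p hp
    have hp' : (0 : ℤ) < p := by exact_mod_cast (hF p hp).pos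
    unfold SH at hx
    rw [Finset.mem_filter] at hx
    unfold VV
    rw [Finset.mem_filter, Finset.mem_product, Finset.mem_Ico, Finset.mem_Ico]
    refine ⟨⟨⟨Int.emod_nonneg _ hp'.ne', Int.emod_lt_of_pos _ hp'⟩,
      ⟨Int.emod_nonneg _ hp'.ne', Int.emod_lt_of_pos _ hp'⟩⟩, ?_⟩
    intro hd
    apply hx.2 p hp
    have e1 := Int.emod_add_mul_ediv x.1 p
    have e2 := Int.emod_add_mul_ediv x.2 p
    have hd' : (p : ℤ) ∣ x.1 % (p : ℤ) * (c p).b - x.2 % (p : ℤ) * (c p).a := hd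
    have e3 : x.1 * (c p).b - x.2 * (c p).a =
        (x.1 % (p : ℤ) * (c p).b - x.2 % (p : ℤ) * (c p).a) +
          (p : ℤ) * (x.1 / p * (c p).b - x.2 / p * (c p).a) := by
      linear_combination (-(c p).b) * e1 + (c p).a * e2
    rw [e3]
    exact dvd_add hd' (dvd_mul_right _ _)
  have h2 : (SH c F H).card ≤ (2 * H / (∏ p ∈ F, p) + 1) ^ 2 * ((SH c F H).image f).card := by
    refine Finset.card_le_mul_card_image _ _ fun w hw => ?_
    obtain ⟨x, hx, rfl⟩ := Finset.mem_image.1 hw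
    have h3 : ((SH c F H).filter (fun y => f y = f x)) ⊆
        ((Finset.Icc (-(H : ℤ)) H).filter (fun a => ((∏ p ∈ F, p : ℕ) : ℤ) ∣ a - x.1)) ×ˢ
        ((Finset.Icc (-(H : ℤ)) H).filter (fun a => ((∏ p ∈ F, p : ℕ) : ℤ) ∣ a - x.2)) := by
      intro y hy
      rw [Finset.mem_filter] at hy
      obtain ⟨hy1, hy2⟩ := hy
      unfold SH at hy1
      rw [Finset.mem_filter, Finset.mem_product] at hy1
      have key : ∀ a b : ℤ, (∀ p ∈ F, a % (p : ℤ) = b % (p : ℤ)) →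
          ((∏ p ∈ F, p : ℕ) : ℤ) ∣ a - b := by
        intro a b hab
        rw [← Int.dvd_natAbs, Int.natCast_dvd_natCast]
        refine Finset.prod_primes_dvd _ (fun p hp => (hF p hp).prime) fun p hp => ?_
        rw [← Int.natCast_dvd_natCast, Int.dvd_natAbs]
        exact (Int.modEq_iff_dvd).1 (hab p hp).symm
      have hc : ∀ p (hp : p ∈ F), y.1 % (p : ℤ) = x.1 % (p : ℤ) ∧
          y.2 % (p : ℤ) = x.2 % (p : ℤ) := by
        intro p hp
        have h4 := congrFun (congrFun hy2 p) hp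
        simp only [f, Prod.mk.injEq] at h4
        exact h4
      rw [Finset.mem_product, Finset.mem_filter, Finset.mem_filter]
      exact ⟨⟨hy1.1.1, key _ _ fun p hp => (hc p hp).1⟩,
        ⟨hy1.1.2, key _ _ fun p hp => (hc p hp).2⟩⟩
    refine (Finset.card_le_card h3).trans ?_
    rw [Finset.card_product, sq]
    exact Nat.mul_le_mul (card_residue H _ hM _) (card_residue H _ hM _)
  refine h2.trans (Nat.mul_le_mul_left _ ?_)
  rw [← Finset.card_pi]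
  exact Finset.card_le_card h1

theorem upper (c : ℕ → Pt) (F : Finset ℕ) (hF : ∀ p ∈ F, p.Prime) (H : ℕ)
    (hH : ∏ p ∈ F, p ≤ H) :
    (({t : Pt | t.height ≤ H ∧ ∀ p ∈ F, ¬ t.Cong p (c p)} : Set Pt).ncard : ℝ) ≤
      36 * (∏ p ∈ F, (1 - 1 / (p : ℝ))) * ((PH H).ncard : ℝ) := by
  have hM : 1 ≤ ∏ p ∈ F, p := Finset.prod_pos fun p hp => (hF p hp).pos
  have h1 : ({t : Pt | t.height ≤ H ∧ ∀ p ∈ F, ¬ t.Cong p (c p)} : Set Pt).ncard ≤
      (SH c F H).card := by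
    rw [← Set.ncard_coe_finset, ← Set.ncard_image_of_injective _ psi_inj]
    refine Set.ncard_le_ncard ?_ (SH c F H).finite_toSet
    rintro _ ⟨t, ht, rfl⟩
    rw [Finset.mem_coe]
    unfold SH
    rw [Finset.mem_filter]
    exact ⟨mem_box ht.1, ht.2⟩
  have h2 : (((SH c F H).card : ℕ) : ℝ) ≤
      (2 * H / ((∏ p ∈ F, p : ℕ) : ℝ) + 1) ^ 2 *
        (((∏ p ∈ F, p : ℕ) : ℝ) ^ 2 * ∏ p ∈ F, (1 - 1 / (p : ℝ))) := by
    have h3 := card_SH c F hF H
    have h4 : ((∏ p ∈ F, (VV c p).card : ℕ) : ℝ) ≤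
        ((∏ p ∈ F, p : ℕ) : ℝ) ^ 2 * ∏ p ∈ F, (1 - 1 / (p : ℝ)) := by
      push_cast
      rw [← Finset.prod_pow, ← Finset.prod_mul_distrib]
      refine Finset.prod_le_prod (fun p _ => by positivity) fun p hp => ?_
      have h5 := card_VV c p (hF p hp).one_lt.le
      have h6 : ((VV c p).card : ℝ) + p ≤ (p : ℝ) ^ 2 := by exact_mod_cast h5
      have h7 : (p : ℝ) ≠ 0 := by exact_mod_cast (hF p hp).ne_zero
      have h8 : (p : ℝ) ^ 2 * (1 - 1 / (p : ℝ)) = (p : ℝ) ^ 2 - p := by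
        field_simp
      rw [h8]
      linarith
    have h5 : ((2 * H / (∏ p ∈ F, p) + 1 : ℕ) : ℝ) ≤ 2 * H / ((∏ p ∈ F, p : ℕ) : ℝ) + 1 := by
      have h6 : ((2 * H / (∏ p ∈ F, p) : ℕ) : ℝ) ≤ ((2 * H : ℕ) : ℝ) / ((∏ p ∈ F, p : ℕ) : ℝ) :=
        Nat.cast_div_le
      rw [Nat.cast_add, Nat.cast_one]
      rw [Nat.cast_mul 2 H, Nat.cast_ofNat] at h6
      linarith
    calc (((SH c F H).card : ℕ) : ℝ)
        ≤ (((2 * H / (∏ p ∈ F, p) + 1) ^ 2 * ∏ p ∈ F, (VV c p).card : ℕ) : ℝ) := by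
          exact_mod_cast h3
      _ = ((2 * H / (∏ p ∈ F, p) + 1 : ℕ) : ℝ) ^ 2 * ((∏ p ∈ F, (VV c p).card : ℕ) : ℝ) := by
          rw [Nat.cast_mul, Nat.cast_pow]
      _ ≤ _ := mul_le_mul (pow_le_pow_left₀ (Nat.cast_nonneg _) h5 2) h4 (Nat.cast_nonneg _)
          (by positivity)
  have hMr : (0 : ℝ) < ((∏ p ∈ F, p : ℕ) : ℝ) := by exact_mod_cast hM
  have hHr : ((∏ p ∈ F, p : ℕ) : ℝ) ≤ H := by exact_mod_cast hH
  have hprod : 0 ≤ ∏ p ∈ F, (1 - 1 / (p : ℝ)) := by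
    refine Finset.prod_nonneg fun p hp => ?_
    have h7 : (1 : ℝ) ≤ p := by exact_mod_cast (hF p hp).one_lt.le
    rw [sub_nonneg, div_le_one (by linarith)]
    exact h7
  have h3 : (2 * H / ((∏ p ∈ F, p : ℕ) : ℝ) + 1) ^ 2 *
        (((∏ p ∈ F, p : ℕ) : ℝ) ^ 2 * ∏ p ∈ F, (1 - 1 / (p : ℝ))) =
      (2 * H + ((∏ p ∈ F, p : ℕ) : ℝ)) ^ 2 * ∏ p ∈ F, (1 - 1 / (p : ℝ)) := by
    rw [← mul_assoc, ← mul_pow]
    congr 2
    field_simp
  calc _ ≤ (((SH c F H).card : ℕ) : ℝ) := by exact_mod_cast h1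
    _ ≤ _ := h2
    _ = (2 * H + ((∏ p ∈ F, p : ℕ) : ℝ)) ^ 2 * ∏ p ∈ F, (1 - 1 / (p : ℝ)) := h3
    _ ≤ (3 * H) ^ 2 * ∏ p ∈ F, (1 - 1 / (p : ℝ)) := by
        refine mul_le_mul_of_nonneg_right (pow_le_pow_left₀ (by positivity) (by linarith) 2) hprod
    _ = 36 * (∏ p ∈ F, (1 - 1 / (p : ℝ))) * ((H : ℝ) ^ 2 / 4) := by ring
    _ ≤ _ := mul_le_mul_of_nonneg_left (lower H) (by positivity)

/-! ## Divergence -/

theorem exists_small (R : Set ℕ) (hR : ∀ p ∈ R, p.Prime)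
    (hns : ¬ Summable (fun p : R => (1 : ℝ) / ((p : ℕ) : ℝ))) (G : Finset ℕ) (ε : ℝ) (hε : 0 < ε) :
    ∃ F : Finset ℕ, (∀ p ∈ F, p ∈ R) ∧ Disjoint F G ∧ ∏ p ∈ F, (1 - 1 / (p : ℝ)) < ε := by
  classical
  by_contra hcon
  push Not at hcon
  apply hns
  have hbd : ∀ F : Finset ℕ, (∀ p ∈ F, p ∈ R) → Disjoint F G →
      ∑ p ∈ F, (1 : ℝ) / p ≤ -Real.log ε := by
    intro F h1 h2
    have h3 := hcon F h1 h2
    have h4 : ∏ p ∈ F, (1 - 1 / (p : ℝ)) ≤ Real.exp (-∑ p ∈ F, (1 : ℝ) / p) := by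
      rw [← Finset.sum_neg_distrib, Real.exp_sum]
      refine Finset.prod_le_prod (fun p hp => ?_) fun p _ => ?_
      · have h7 : (1 : ℝ) ≤ p := by exact_mod_cast (hR p (h1 p hp)).one_lt.le
        rw [sub_nonneg, div_le_one (by linarith)]
        exact h7
      · have := Real.add_one_le_exp (-(1 / (p : ℝ)))
        linarith
    have h5 := Real.log_le_log hε (h3.trans h4)
    rw [Real.log_exp] at h5
    linarith
  refine summable_of_sum_le (c := -Real.log ε + ∑ p ∈ G, (1 : ℝ) / p) (fun p => by positivity)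
    fun u => ?_
  have h1 : ∑ x ∈ u, (1 : ℝ) / ((x : ℕ) : ℝ) =
      ∑ p ∈ u.map ⟨Subtype.val, Subtype.val_injective⟩, (1 : ℝ) / (p : ℝ) := by
    rw [Finset.sum_map]
    rfl
  rw [h1]
  set U := u.map ⟨Subtype.val, Subtype.val_injective⟩ with hU
  have hUR : ∀ p ∈ U, p ∈ R := by
    intro p hp
    rw [hU, Finset.mem_map] at hp
    obtain ⟨x, _, rfl⟩ := hp
    exact x.2
  rw [← Finset.sum_sdiff (Finset.inter_subset_left : U ∩ G ⊆ U)]
  refine add_le_add ?_ ?_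
  · refine hbd _ (fun p hp => hUR p (Finset.sdiff_subset hp)) ?_
    rw [Finset.disjoint_left]
    intro p hp hpG
    rw [Finset.mem_sdiff, Finset.mem_inter] at hp
    exact hp.2 ⟨hp.1, hpG⟩
  · exact Finset.sum_le_sum_of_subset_of_nonneg Finset.inter_subset_right
      fun p _ _ => by positivity

theorem main_claim (R : Set ℕ) (c : ℕ → Pt) (hR : ∀ p ∈ R, p.Prime)
    (hns : ¬ Summable (fun p : R => (1 : ℝ) / ((p : ℕ) : ℝ))) (k : ℕ) :
    ∀ (G : Finset ℕ) (ε : ℝ), 0 < ε → ∃ H0 : ℕ, ∀ H, H0 ≤ H →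
      (({t : Pt | t.height ≤ H ∧ ¬ ∃ F : Finset ℕ, k ≤ F.card ∧ Disjoint F G ∧
        ∀ p ∈ F, p ∈ R ∧ t.Cong p (c p)} : Set Pt).ncard : ℝ) ≤ ε * ((PH H).ncard : ℝ) := by
  classical
  induction k with
  | zero =>
    intro G ε hε
    refine ⟨0, fun H _ => ?_⟩
    have h1 : ({t : Pt | t.height ≤ H ∧ ¬ ∃ F : Finset ℕ, 0 ≤ F.card ∧ Disjoint F G ∧
        ∀ p ∈ F, p ∈ R ∧ t.Cong p (c p)} : Set Pt) = ∅ := by
      rw [Set.eq_empty_iff_forall_notMem]
      rintro t ⟨_, h⟩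
      exact h ⟨∅, Nat.zero_le _, Finset.disjoint_empty_left _, by simp⟩
    rw [h1, Set.ncard_empty]
    simp only [Nat.cast_zero]
    positivity
  | succ k ih =>
    intro G ε hε
    obtain ⟨F1, hF1, hd, hs⟩ := exists_small R hR hns G (ε / 72) (by positivity)
    obtain ⟨H0, hH0⟩ := ih (G ∪ F1) (ε / 2) (by positivity)
    refine ⟨max H0 (∏ p ∈ F1, p), fun H hH => ?_⟩
    have hH1 : H0 ≤ H := le_trans (le_max_left _ _) hH
    have hH2 : ∏ p ∈ F1, p ≤ H := le_trans (le_max_right _ _) hH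
    have h1 := hH0 H hH1
    have h2 := upper c F1 (fun p hp => hR p (hF1 p hp)) H hH2
    have hsub : ({t : Pt | t.height ≤ H ∧ ¬ ∃ F : Finset ℕ, k + 1 ≤ F.card ∧ Disjoint F G ∧
        ∀ p ∈ F, p ∈ R ∧ t.Cong p (c p)} : Set Pt) ⊆
        {t : Pt | t.height ≤ H ∧ ¬ ∃ F : Finset ℕ, k ≤ F.card ∧ Disjoint F (G ∪ F1) ∧
          ∀ p ∈ F, p ∈ R ∧ t.Cong p (c p)} ∪
        {t : Pt | t.height ≤ H ∧ ∀ p ∈ F1, ¬ t.Cong p (c p)} := by
      rintro t ⟨ht, hn⟩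
      by_cases hc : ∀ p ∈ F1, ¬ t.Cong p (c p)
      · exact Or.inr ⟨ht, hc⟩
      · left
        refine ⟨ht, ?_⟩
        rintro ⟨F, hk, hdis, hF⟩
        apply hn
        push Not at hc
        obtain ⟨p, hp, hpc⟩ := hc
        rw [Finset.disjoint_union_right] at hdis
        have hpF : p ∉ F := fun h => (Finset.disjoint_left.1 hdis.2 h) hp
        refine ⟨insert p F, ?_, ?_, ?_⟩
        · rw [Finset.card_insert_of_notMem hpF]
          omega
        · rw [Finset.disjoint_insert_left]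
          exact ⟨Finset.disjoint_left.1 hd hp, hdis.1⟩
        · intro q hq
          rcases Finset.mem_insert.1 hq with rfl | hq
          · exact ⟨hF1 q hp, hpc⟩
          · exact hF q hq
    have hfin : ({t : Pt | t.height ≤ H ∧ ¬ ∃ F : Finset ℕ, k ≤ F.card ∧ Disjoint F (G ∪ F1) ∧
          ∀ p ∈ F, p ∈ R ∧ t.Cong p (c p)} ∪
        {t : Pt | t.height ≤ H ∧ ∀ p ∈ F1, ¬ t.Cong p (c p)} : Set Pt).Finite :=
      (fin_PH H).subset (Set.union_subset (fun t ht => ht.1) fun t ht => ht.1)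
    have h3 := (Set.ncard_le_ncard hsub hfin).trans (Set.ncard_union_le _ _)
    have h4 : (0 : ℝ) ≤ ((PH H).ncard : ℝ) := Nat.cast_nonneg _
    calc _ ≤ (({t : Pt | t.height ≤ H ∧ ¬ ∃ F : Finset ℕ, k ≤ F.card ∧ Disjoint F (G ∪ F1) ∧
          ∀ p ∈ F, p ∈ R ∧ t.Cong p (c p)} : Set Pt).ncard : ℝ) +
        (({t : Pt | t.height ≤ H ∧ ∀ p ∈ F1, ¬ t.Cong p (c p)} : Set Pt).ncard : ℝ) := by
          exact_mod_cast h3
      _ ≤ ε / 2 * ((PH H).ncard : ℝ) +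
          36 * (∏ p ∈ F1, (1 - 1 / (p : ℝ))) * ((PH H).ncard : ℝ) := add_le_add h1 h2
      _ ≤ _ := by nlinarith

theorem card_eq (P : Pt → Prop) : Nat.card {t : Pt // P t} = ({t : Pt | P t} : Set Pt).ncard := rfl

theorem pos_PH (H : ℕ) (hH : 1 ≤ H) : (0 : ℝ) < ((PH H).ncard : ℝ) := by
  have h1 := lower H
  have h2 : (1 : ℝ) ≤ H := by exact_mod_cast hH
  nlinarith

/-- **SV** -/
theorem t_SV : S_SV := by
  intro R c hR hns k
  unfold AlmostAll
  rw [Metric.tendsto_atTop]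
  intro ε hε
  obtain ⟨H0, hH0⟩ := main_claim R c hR hns k ∅ (ε / 2) (by positivity)
  refine ⟨max H0 1, fun H hH => ?_⟩
  have hH1 : H0 ≤ H := le_trans (le_max_left _ _) hH
  have hH2 : 1 ≤ H := le_trans (le_max_right _ _) hH
  have h1 := hH0 H hH1
  have hpos := pos_PH H hH2
  have h2 : (Nat.card {t : Pt // t.height ≤ H} : ℝ) = ((PH H).ncard : ℝ) := rfl
  rw [Real.dist_eq, sub_zero, abs_of_nonneg (by positivity), h2, div_lt_iff₀ hpos]
  have h3 : (Nat.card {t : Pt // t.height ≤ H ∧ ¬ ∃ F : Finset ℕ, k ≤ F.card ∧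
      ∀ p ∈ F, p ∈ R ∧ t.Cong p (c p)} : ℝ) ≤
      (({t : Pt | t.height ≤ H ∧ ¬ ∃ F : Finset ℕ, k ≤ F.card ∧ Disjoint F ∅ ∧
        ∀ p ∈ F, p ∈ R ∧ t.Cong p (c p)} : Set Pt).ncard : ℝ) := by
    rw [card_eq]
    refine Nat.cast_le.2 (Set.ncard_le_ncard ?_ ((fin_PH H).subset fun t ht => ht.1))
    rintro t ⟨ht, hn⟩
    refine ⟨ht, ?_⟩
    rintro ⟨F, hF1, _, hF2⟩
    exact hn ⟨F, hF1, hF2⟩
  nlinarith

/-- **AA** -/
theorem t_AA : S_AA := by
  intro A B hA hB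
  unfold AlmostAll at *
  have hsum := hA.add hB
  rw [add_zero] at hsum
  refine squeeze_zero (fun H => by positivity) (fun H => ?_) hsum
  rw [← add_div]
  refine div_le_div_of_nonneg_right ?_ (by positivity)
  rw [card_eq, card_eq, card_eq]
  have hsub : ({t : Pt | t.height ≤ H ∧ ¬ (A t ∧ B t)} : Set Pt) ⊆
      {t : Pt | t.height ≤ H ∧ ¬ A t} ∪ {t : Pt | t.height ≤ H ∧ ¬ B t} := by
    rintro t ⟨ht, hn⟩
    by_cases h : A t
    · exact Or.inr ⟨ht, fun hb => hn ⟨h, hb⟩⟩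
    · exact Or.inl ⟨ht, h⟩
  have hfin : ({t : Pt | t.height ≤ H ∧ ¬ A t} ∪ {t : Pt | t.height ≤ H ∧ ¬ B t} : Set Pt).Finite :=
    (fin_PH H).subset (Set.union_subset (fun t ht => ht.1) fun t ht => ht.1)
  have h3 := (Set.ncard_le_ncard hsub hfin).trans (Set.ncard_union_le _ _)
  exact_mod_cast h3

end Pool.Agent.N592.HP
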